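import Pool.Agent.P.MP_c8f9b2_an.Exist

namespace Pool.Agent.Results.MP_c8f9b2_an.Discontinuous

open Pool.Agent.P.MP_c8f9b2_an MeasureTheory

/-- Q2: the volume is not a continuous function of the initial data. -/
theorem result (m : ℕ) (hm : 3 ≤ m) :
    (∃ U : (Fin m → ℝ) → EuclideanSpace ℝ (Fin (2 * m)) → ℝ, ∀ a, IsRadialSol m a (U a)) ∧
      ∀ U : (Fin m → ℝ) → EuclideanSpace ℝ (Fin (2 * m)) → ℝ, (∀ a, IsRadialSol m a (U a)) →
        ∃ a₀, ¬ ContinuousAt (fun a => ∫⁻ x, ENNReal.ofReal (Real.exp (U a x))) a₀ := by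
  obtain ⟨k, rfl⟩ : ∃ k, m = k + 3 := ⟨m - 3, by omega⟩
  refine ⟨⟨fun a => (exists_sol (k + 2) a).choose, fun a => (exists_sol (k + 2) a).choose_spec⟩,
    fun U hU => ?_⟩
  obtain ⟨a₀, h⟩ := exists_discont k U hU
  refine ⟨a₀, fun hc => h ?_⟩
  have h1 : ∀ a, Integrable fun x => Real.exp (U a x) := fun a => (hU a).integrable (by omega)
  have h2 : (fun a => ∫ x, Real.exp (U a x)) =
      fun a => (∫⁻ x, ENNReal.ofReal (Real.exp (U a x))).toReal := funext fun a =>
    integral_eq_lintegral_of_nonneg_ae (Filter.Eventually.of_forall fun x => (Real.exp_pos _).le)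
      (h1 a).aestronglyMeasurable
  rw [h2]
  exact ContinuousAt.comp (f := fun a => ∫⁻ x, ENNReal.ofReal (Real.exp (U a x)))
    (ENNReal.continuousAt_toReal (h1 a₀).lintegral_lt_top.ne) hc

end Pool.Agent.Results.MP_c8f9b2_an.Discontinuous
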