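import Pool.Agent.P.MP_c8f9b2_an.Exist

namespace Pool.Agent.Results.MP_c8f9b2_an.FiniteVolume

open Pool.Agent.P.MP_c8f9b2_an MeasureTheory

/-- Q1: the radial solution with initial data `a` exists and has finite volume. -/
theorem result (m : ℕ) (hm : 3 ≤ m) (a : Fin m → ℝ) :
    (∃ u, IsRadialSol m a u) ∧
      ∀ u, IsRadialSol m a u → ∫⁻ x, ENNReal.ofReal (Real.exp (u x)) < ⊤ := by
  obtain ⟨k, rfl⟩ : ∃ k, m = k + 1 := ⟨m - 1, by omega⟩
  refine ⟨exists_sol k a, fun u hu => ?_⟩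
  exact (hu.integrable (by omega)).lintegral_lt_top

end Pool.Agent.Results.MP_c8f9b2_an.FiniteVolume
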